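import Pool.Agent.Work.MP_db9399_exp.Interface

/-! Block FINX: from CTX, STR, UCX, PRE, INS, TASK, GF to the theorem on graphs (helper83). -/

set_option autoImplicit false

namespace Pool.Agent.Work.MP_db9399_exp.helper83

open Finset Classical
open Pool.Agent.Work.MP_db9399_all (nb)
open Pool.Agent.Work.MP_db9399_px (ee BE NR)
open Pool.Agent.Work.MP_db9399_exp
open _root_.MP_db9399_co

universe u

namespace FINXAux

variable {V : Type u} [Fintype V]

lemma mem_nb (G : SimpleGraph V) (v w : V) : w ∈ nb G v ↔ G.Adj v w := by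
  unfold nb; simp

lemma card_nb (G : SimpleGraph V) [DecidableRel G.Adj] (v : V) : (nb G v).card = G.degree v := by
  rw [← SimpleGraph.card_neighborFinset_eq_degree]
  congr 1
  ext w
  rw [mem_nb]
  simp

lemma sum_nb_inter (G : SimpleGraph V) [DecidableRel G.Adj] (A B : Finset V) :
    (∑ a ∈ A, ((nb G a ∩ B).card : ℝ)) = ((G.interedges A B).card : ℝ) := by
  have h : (G.interedges A B).card = ∑ a ∈ A, (nb G a ∩ B).card := by
    rw [SimpleGraph.interedges_def, card_filter, sum_product]
    refine sum_congr rfl fun a _ => ?_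
    rw [← card_filter]
    congr 1
    ext w
    simp [mem_nb, and_comm]
  rw [h]
  push_cast
  rfl

/-- The graph without the edges of `H`. -/
def del (G : SimpleGraph V) (H : G.Subgraph) : SimpleGraph V where
  Adj v w := G.Adj v w ∧ ¬ H.Adj v w
  symm := ⟨fun _ _ h => ⟨h.1.symm, fun h' => h.2 h'.symm⟩⟩
  loopless := ⟨fun _ h => G.loopless.irrefl _ h.1⟩

end FINXAux

open FINXAux in
/-- Block FINX. -/
theorem stmt_FINX : Stmt_FINX.{u} := by
  intro hCTX hSTR hUCX hPRE hINS hTASK hGF γ hγ
  have hγ' : 0 < min γ 1 := lt_min hγ one_pos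
  obtain ⟨m, r, hC0⟩ := hCTX (min γ 1) hγ' (min_le_right _ _)
  obtain ⟨d1, hU1⟩ := hUCX m r
  obtain ⟨ε, d0, hε, hd10, hC⟩ := hC0 d1
  refine ⟨ε, d0, hε, ?_⟩
  intro V _ G _ d k hd hn hk hdeg hmix H hH c0 t0 h0
  obtain ⟨hM, hdist⟩ := hH
  set U : Finset V := univ.filter (fun v => v ∈ H.verts) with hU
  have hUmem : ∀ v, v ∈ U ↔ v ∈ H.verts := by intro v; rw [hU]; simp
  -- adjacency facts
  have hF2 : ∀ u ∈ U, ∀ v ∈ U, G.Adj u v → H.Adj u v := by
    intro u hu v hv huv
    by_contra hn
    have h1 := hdist u ((hUmem u).1 hu) v ((hUmem v).1 hv) huv.ne hn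
    have h3 : G.edist u v ≤ ((SimpleGraph.Walk.cons huv SimpleGraph.Walk.nil).length : ℕ∞) :=
      SimpleGraph.edist_le _
    simp only [SimpleGraph.Walk.length_cons, SimpleGraph.Walk.length_nil] at h3
    have h4 := h1.trans h3
    norm_num at h4
  have hF3 : ∀ w, ∀ u ∈ U, ∀ v ∈ U, u ≠ v → G.Adj w u → G.Adj w v → H.Adj u v := by
    intro w u hu v hv huv h1 h2
    by_contra hn
    have h5 := hdist u ((hUmem u).1 hu) v ((hUmem v).1 hv) huv hn
    have h3 : G.edist u v ≤ ((SimpleGraph.Walk.cons h1.symm (SimpleGraph.Walk.cons h2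
      SimpleGraph.Walk.nil)).length : ℕ∞) := SimpleGraph.edist_le _
    simp only [SimpleGraph.Walk.length_cons, SimpleGraph.Walk.length_nil] at h3
    have h4 := h5.trans h3
    norm_num at h4
  have hF4 : ∀ u v v', H.Adj u v → H.Adj u v' → v = v' := by
    intro u v v' h1 h2
    exact (hM h1.fst_mem).unique h1 h2
  set G0 : SimpleGraph V := del G H with hG0
  have hG0adj : ∀ v w, G0.Adj v w ↔ G.Adj v w ∧ ¬ H.Adj v w := fun v w => Iff.rfl
  have hUadj : ∀ a b, H.Adj a b → a ∈ U := fun a b h => (hUmem a).2 h.fst_mem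
  have hHcard : ∀ u, (univ.filter (fun v => H.Adj u v)).card ≤ 1 := by
    intro u
    rw [card_le_one]
    intro a ha b hb
    rw [mem_filter] at ha hb
    exact hF4 u a b ha.2 hb.2
  have hunion : ∀ v, nb G v = nb G0 v ∪ univ.filter (fun w => H.Adj v w) := by
    intro v
    ext w
    rw [mem_union, mem_nb, mem_nb, mem_filter, hG0adj]
    constructor
    · intro h
      by_cases h' : H.Adj v w
      · exact Or.inr ⟨mem_univ _, h'⟩
      · exact Or.inl ⟨h, h'⟩
    · rintro (h | h)
      · exact h.1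
      · exact h.2.adj_sub
  have hdisj : ∀ v, Disjoint (nb G0 v) (univ.filter (fun w => H.Adj v w)) := by
    intro v
    rw [Finset.disjoint_left]
    intro w hw hw'
    rw [mem_nb, hG0adj] at hw
    rw [mem_filter] at hw'
    exact hw.2 hw'.2
  have hcard : ∀ v, (nb G v).card = (nb G0 v).card + (univ.filter (fun w => H.Adj v w)).card := by
    intro v
    rw [hunion v, card_union_of_disjoint (hdisj v)]
  set F : V → Finset (Fin k) := fun u => if u ∈ U then
    insert (c0 u) ((univ.filter (fun v => H.Adj u v)).image (fun v => t0 s(u, v))) else ∅ with hF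
  have hFU : ∀ u ∈ U, F u =
      insert (c0 u) ((univ.filter (fun v => H.Adj u v)).image (fun v => t0 s(u, v))) := by
    intro u hu
    rw [hF]
    simp only [if_pos hu]
  have hFcard : ∀ u ∈ U, (F u).card ≤ (univ.filter (fun v => H.Adj u v)).card + 1 := by
    intro u hu
    rw [hFU u hu]
    refine (card_insert_le _ _).trans ?_
    have := card_image_le (s := univ.filter (fun v => H.Adj u v)) (f := fun v => t0 s(u, v))
    omega
  have hc0F : ∀ u ∈ U, c0 u ∈ F u := by
    intro u hu
    rw [hFU u hu]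
    exact mem_insert_self _ _
  have ht0F : ∀ u v, H.Adj u v → t0 s(u, v) ∈ F u := by
    intro u v h
    rw [hFU u (hUadj u v h)]
    apply mem_insert_of_mem
    exact mem_image_of_mem (fun v => t0 s(u, v)) (mem_filter.2 ⟨mem_univ v, h⟩)
  have hdeg' : ∀ v, (nb G v).card ≤ d ∧ (1 - ε) * d ≤ ((nb G v).card : ℝ) := by
    intro v
    rw [card_nb]
    exact hdeg v
  have hU2 : ∀ v, (univ.filter (fun u => u ∈ U ∧ G0.Adj v u)).card ≤ 2 := by
    intro x
    by_contra hcon
    push Not at hcon
    obtain ⟨a, ha, b, hb, c, hc, hab, hac, hbc⟩ := two_lt_card.1 hcon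
    rw [mem_filter] at ha hb hc
    have h1 := hF3 x a ha.2.1 b hb.2.1 hab ha.2.2.1 hb.2.2.1
    have h2 := hF3 x a ha.2.1 c hc.2.1 hac ha.2.2.1 hc.2.2.1
    exact hbc (hF4 a b c h1 h2)
  -- the sides of the vertices of `H`
  have hpart : ∀ u ∈ U, ∃ v, H.Adj u v := by
    intro u hu
    obtain ⟨v, hv, _⟩ := hM ((hUmem u).1 hu)
    exact ⟨v, hv⟩
  set e := Fintype.equivFin V with he
  set τ : V → Bool := fun u => decide (∃ v, H.Adj u v ∧ e u < e v) with hτ
  have hτt : ∀ u v, H.Adj u v → (τ u = true ↔ e u < e v) := by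
    intro u v h
    rw [hτ]
    simp only [decide_eq_true_eq]
    constructor
    · rintro ⟨w, hw, hlt⟩
      rw [hF4 u v w h hw]
      exact hlt
    · intro hlt
      exact ⟨v, h, hlt⟩
  have hτne : ∀ u v, H.Adj u v → τ v = !(τ u) := by
    intro u v h
    have h1 := hτt u v h
    have h2 := hτt v u h.symm
    have h3 : e u ≠ e v := fun h' => h.ne (e.injective h')
    rcases lt_or_gt_of_ne h3 with h4 | h4
    · have h5 : τ u = true := h1.2 h4
      have h6 : τ v = false := by
        rw [Bool.eq_false_iff]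
        intro h7
        exact absurd (h2.1 h7) (not_lt.2 h4.le)
      rw [h5, h6]; rfl
    · have h5 : τ v = true := h2.2 h4
      have h6 : τ u = false := by
        rw [Bool.eq_false_iff]
        intro h7
        exact absurd (h1.1 h7) (not_lt.2 h4.le)
      rw [h5, h6]; rfl
  have hUone : ∀ v s, (univ.filter (fun u => u ∈ U ∧ G0.Adj v u ∧ τ u = s)).card ≤ 1 := by
    intro x s
    rw [card_le_one]
    intro a ha b hb
    rw [mem_filter] at ha hb
    by_contra hab
    have h1 := hF3 x a ha.2.1 b hb.2.1 hab ha.2.2.1.1 hb.2.2.1.1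
    have h2 := hτne a b h1
    rw [ha.2.2.2, hb.2.2.2] at h2
    cases s <;> simp at h2
  choose! pt hpt using hpart
  have hptU : ∀ u ∈ U, pt u ∈ U := fun u hu => hUadj (pt u) u (hpt u hu).symm
  have hptpt : ∀ u ∈ U, pt (pt u) = u := fun u hu =>
    hF4 (pt u) (pt (pt u)) u (hpt (pt u) (hptU u hu)) (hpt u hu).symm
  have hUeq : (univ.filter (fun u => u ∈ U ∧ τ u = true)).card =
      (univ.filter (fun u => u ∈ U ∧ τ u = false)).card := by
    refine card_bij' (fun u _ => pt u) (fun u _ => pt u) ?_ ?_ ?_ ?_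
    · intro u hu
      rw [mem_filter] at hu ⊢
      refine ⟨mem_univ _, hptU u hu.2.1, ?_⟩
      rw [hτne u (pt u) (hpt u hu.2.1), hu.2.2]
      rfl
    · intro u hu
      rw [mem_filter] at hu ⊢
      refine ⟨mem_univ _, hptU u hu.2.1, ?_⟩
      rw [hτne u (pt u) (hpt u hu.2.1), hu.2.2]
      rfl
    · intro u hu
      rw [mem_filter] at hu
      exact hptpt u hu.2.1
    · intro u hu
      rw [mem_filter] at hu
      exact hptpt u hu.2.1
  have hd0 : (0 : ℝ) ≤ d := Nat.cast_nonneg d
  have hNR : NR G d ε := hdeg'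
  have hBE : BE G d (min γ 1) := by
    intro A B hBA hA
    have h1 := hmix A B hBA hA
    have h2 : ee G A B = ((G.interedges A B).card : ℝ) := sum_nb_inter G A B
    rw [h2]
    refine h1.trans ?_
    have h3 : (0 : ℝ) ≤ (d : ℝ) * A.card := by positivity
    have h4 : min γ 1 ≤ γ := min_le_left _ _
    nlinarith
  have hn' : (2 + min γ 1) * (d : ℝ) ≤ (Fintype.card V : ℝ) := by
    refine le_trans ?_ hn
    have h4 : min γ 1 ≤ γ := min_le_left _ _
    nlinarith
  obtain ⟨X⟩ := hC k d G G0 U F τ hd hn' hk hNR hBE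
    (fun v w h => h.1)
    (fun v => by
      have h1 := hcard v
      have h2 := hHcard v
      omega)
    (fun v hv => by
      rw [hunion v]
      have : univ.filter (fun w => H.Adj v w) = ∅ := by
        rw [filter_eq_empty_iff]
        intro w _ hw
        exact hv (hUadj v w hw)
      rw [this, union_empty])
    (fun u hu => by
      have h1 := hFcard u hu
      have h2 := hHcard u
      omega)
    (fun v hv => by rw [hF]; simp only [if_neg hv])
    (fun u hu v hv h => h.2 (hF2 u hu v hv h.1))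
    hU2 hUone hUeq
    (fun u hu => by
      have h1 := hFcard u hu
      have h2 := hcard u
      have h3 := (hdeg' u).1
      omega)
  obtain ⟨St⟩ := hSTR X
  obtain ⟨Uc⟩ := hU1 X (hd10.trans hd)
  obtain ⟨P, hP⟩ := hPRE X St Uc
  obtain ⟨I⟩ := hINS X P hP
  obtain ⟨Mt⟩ := hTASK X I
  obtain ⟨t, g1, g2, ⟨g3, g3'⟩, g4, g5⟩ := hGF X I Mt
  -- the colouring
  set cc : V → Fin k := fun v => if v ∈ U then c0 v else X.c v with hcc
  have hccU : ∀ v ∈ U, cc v = c0 v := by
    intro v hv
    rw [hcc]
    simp only [if_pos hv]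
  have hccn : ∀ v, v ∉ U → cc v = X.c v := by
    intro v hv
    rw [hcc]
    simp only [if_neg hv]
  set tt : Sym2 V → Fin k := fun e => if e ∈ H.edgeSet then t0 e else
    Sym2.lift ⟨fun a b => t a b, fun a b => g3 a b⟩ e with htt
  have httR : ∀ a b, ¬ H.Adj a b → tt s(a, b) = t a b := by
    intro a b hn
    rw [htt]
    simp only
    rw [if_neg (by rw [SimpleGraph.Subgraph.mem_edgeSet]; exact hn)]
    rfl
  have httH : ∀ a b, H.Adj a b → tt s(a, b) = t0 s(a, b) := by
    intro a b h
    rw [htt]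
    simp only
    rw [if_pos (by rw [SimpleGraph.Subgraph.mem_edgeSet]; exact h)]
  refine ⟨cc, tt, ⟨?_, ?_, ?_⟩, ?_, ?_⟩
  · -- vertices
    intro u v huv
    by_cases hH' : H.Adj u v
    · rw [hccU u (hUadj u v hH'), hccU v (hUadj v u hH'.symm)]
      exact h0.vertex u v (by simpa using hH')
    · have hadj : G0.Adj u v := ⟨huv, hH'⟩
      by_cases hu : u ∈ U
      · by_cases hv : v ∈ U
        · exact absurd (hF2 u hu v hv huv) hH'
        · rw [hccU u hu, hccn v hv]
          intro heq
          apply g2 v u hu hv hadj.symm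
          rw [← heq]
          exact hc0F u hu
      · by_cases hv : v ∈ U
        · rw [hccn u hu, hccU v hv]
          intro heq
          apply g2 u v hv hu hadj
          rw [heq]
          exact hc0F v hv
        · rw [hccn u hu, hccn v hv]
          exact g1 u v hu hv hadj
  · -- edges
    intro u v w huv huw hvw
    by_cases h1 : H.Adj u v
    · by_cases h2 : H.Adj u w
      · exact absurd (hF4 u v w h1 h2) hvw
      · rw [httH u v h1, httR u w h2]
        intro heq
        apply g4 u w ⟨huw, h2⟩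
        rw [← heq]
        exact ht0F u v h1
    · by_cases h2 : H.Adj u w
      · rw [httH u w h2, httR u v h1]
        intro heq
        apply g4 u v ⟨huv, h1⟩
        rw [heq]
        exact ht0F u w h2
      · rw [httR u v h1, httR u w h2]
        intro heq
        refine hvw (g3' u ?_ ?_ heq)
        · rw [Finset.mem_coe, mem_nb]; exact ⟨huv, h1⟩
        · rw [Finset.mem_coe, mem_nb]; exact ⟨huw, h2⟩
  · -- incidences
    intro u v huv
    by_cases h1 : H.Adj u v
    · rw [httH u v h1, hccU u (hUadj u v h1)]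
      exact h0.incidence u v (by simpa using h1)
    · rw [httR u v h1]
      by_cases hu : u ∈ U
      · rw [hccU u hu]
        intro heq
        apply g4 u v ⟨huv, h1⟩
        rw [heq]
        exact hc0F u hu
      · rw [hccn u hu]
        exact g5 u v hu ⟨huv, h1⟩
  · intro v hv
    exact hccU v ((hUmem v).2 hv)
  · intro e he
    rw [htt]
    simp only
    rw [if_pos he]

end Pool.Agent.Work.MP_db9399_exp.helper83
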