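import Pool.Agent.Work.MP_db9399_exp.Interface

/-! Block PRE: the partial colouring from the structured edges and the edges at `U` (helper83). -/

set_option autoImplicit false

namespace Pool.Agent.Work.MP_db9399_exp.helper83

open Finset Classical
open Pool.Agent.Work.MP_db9399_all (nb mis)
open Pool.Agent.Work.MP_db9399_qr (cov PEC ins sd PMat W0 imb ZQ Good)
open Pool.Agent.Work.MP_db9399_exp

universe u

namespace PREAux

variable {m r : ℕ} {V : Type u} [Fintype V] {k d : ℕ} {G : SimpleGraph V} {U : Finset V}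
  {F : V → Finset (Fin k)}

lemma mem_cls {T : Type} (U : Finset V) (π : V → T) (P : Finset T) (v : V) :
    v ∈ cls U π P ↔ v ∉ U ∧ π v ∈ P := by
  unfold cls
  rw [mem_filter]
  exact ⟨fun h => h.2, fun h => ⟨mem_univ _, h⟩⟩

lemma two_mul_inj {n : ℕ} {a b : ZMod (2 * n + 1)} (h : 2 * a = 2 * b) : a = b := by
  have h2 : IsUnit ((2 : ℕ) : ZMod (2 * n + 1)) := by
    rw [ZMod.isUnit_iff_coprime]
    simp
  have h3 : ((2 : ℕ) : ZMod (2 * n + 1)) * a = ((2 : ℕ) : ZMod (2 * n + 1)) * b := by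
    push_cast
    exact h
  exact h2.mul_left_cancel h3

lemma Fs_invol (X : Ctx m r k d G U F) (b : Fin k) (s : ZMod (2 * r + 1)) (h : s ∈ X.Fs b) :
    2 * X.gs b - s ∈ X.Fs b := by
  unfold Ctx.Fs at h ⊢
  rw [mem_filter] at h ⊢
  refine ⟨mem_univ _, ?_⟩
  have e : 2 * X.gs b - (2 * X.gs b - s) = s := by ring
  rcases h.2 with h1 | h1 | h1
  · right; left; rw [e]; exact h1
  · left; exact h1
  · right; right; refine ⟨h1.1, ?_⟩; rw [h1.2]; ring

lemma not_idl_of_mem {X : Ctx m r k d G U F} {b : Fin k} {v : V} (h : v ∈ U) : ¬ X.idl b v :=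
  fun h' => h'.1 h

lemma UU' (X : Ctx m r k d G U F) {v w : V} (hv : v ∈ U) (hw : w ∈ U) : ¬ X.R.Adj v w :=
  fun h => X.UU v hv w hw h.1

lemma unique_U (X : Ctx m r k d G U F) {v w w' : V} (hw : w ∈ U) (hw' : w' ∈ U)
    (h : X.R.Adj w v) (h' : X.R.Adj w' v) : w = w' := by
  have h1 := X.U1 v (X.side v)
  rw [card_le_one] at h1
  exact h1 w (mem_filter.2 ⟨mem_univ _, hw, h.1.symm, h.2⟩) w'
    (mem_filter.2 ⟨mem_univ _, hw', h'.1.symm, h'.2⟩)

/-- the colouring -/
def EP (X : Ctx m r k d G U F) (S : Str X) (C : UC X) (b : Fin k) (v w : V) : Prop :=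
  (S.E b v w ∧ X.sub v ∉ X.Fs b) ∨ (v ∈ U ∧ X.R.Adj v w ∧ C.t v w = b) ∨
    (w ∈ U ∧ X.R.Adj w v ∧ C.t w v = b)

lemma zmod_card (n : ℕ) : Fintype.card (ZMod (2 * n + 1)) = 2 * n + 1 := ZMod.card _

/-- number of colours with `hm (gk b) = some s` -/
lemma cntA (X : Ctx m r k d G U F) (s : ZMod (2 * r + 1)) :
    (X.Ga.filter (fun b => X.hm (X.gk b) = some s)).card ≤
      (2 * m + 1) * (2 * m + 1) * (2 * r + 1) * X.w := by
  have h1 : (X.Ga.filter (fun b => X.hm (X.gk b) = some s)).card ≤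
      ((univ : Finset (ZMod (2 * m + 1))) ×ˢ ((univ : Finset (ZMod (2 * m + 1))) ×ˢ
        ((univ : Finset (ZMod (2 * r + 1))) ×ˢ
          ((range X.u).filter (fun l => X.hm l = some s))))).card := by
    refine card_le_card_of_injOn (fun b => (X.gi b, X.gj b, X.gs b, X.gk b)) ?_ ?_
    · intro b hb
      rw [mem_coe, mem_filter] at hb
      rw [mem_coe]
      simp only [mem_product, mem_univ, true_and, mem_filter, mem_range]
      exact ⟨X.glt b hb.1, hb.2⟩
    · intro b hb b' hb' h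
      rw [mem_coe, mem_filter] at hb hb'
      simp only [Prod.mk.injEq] at h
      exact X.ginj b hb.1 b' hb'.1 h.1 h.2.1 h.2.2.1 h.2.2.2
  refine h1.trans ?_
  rw [card_product, card_product, card_product, card_univ, card_univ, zmod_card, zmod_card]
  have h2 := X.hmw s
  calc (2 * m + 1) * ((2 * m + 1) * ((2 * r + 1) *
        ((range X.u).filter (fun l => X.hm l = some s)).card))
      ≤ (2 * m + 1) * ((2 * m + 1) * ((2 * r + 1) * X.w)) := by gcongr
    _ = (2 * m + 1) * (2 * m + 1) * (2 * r + 1) * X.w := by ring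

/-- number of colours with `hm (gk b) = some (2 * gs b - s)` -/
lemma cntB (X : Ctx m r k d G U F) (s : ZMod (2 * r + 1)) :
    (X.Ga.filter (fun b => X.hm (X.gk b) = some (2 * X.gs b - s))).card ≤
      (2 * m + 1) * (2 * m + 1) * X.u := by
  have h1 : (X.Ga.filter (fun b => X.hm (X.gk b) = some (2 * X.gs b - s))).card ≤
      ((univ : Finset (ZMod (2 * m + 1))) ×ˢ ((univ : Finset (ZMod (2 * m + 1))) ×ˢ
        (range X.u))).card := by
    refine card_le_card_of_injOn (fun b => (X.gi b, X.gj b, X.gk b)) ?_ ?_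
    · intro b hb
      rw [mem_coe, mem_filter] at hb
      rw [mem_coe]
      simp only [mem_product, mem_univ, true_and, mem_range]
      exact X.glt b hb.1
    · intro b hb b' hb' h
      rw [mem_coe, mem_filter] at hb hb'
      simp only [Prod.mk.injEq] at h
      have h3 := hb.2
      rw [h.2.2, hb'.2, Option.some.injEq] at h3
      have h4 : 2 * X.gs b = 2 * X.gs b' := by
        have h5 := congrArg (fun x => x + s) h3
        simp only [sub_add_cancel] at h5
        exact h5.symm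
      exact X.ginj b hb.1 b' hb'.1 h.1 h.2.1 (two_mul_inj h4) h.2.2
  refine h1.trans ?_
  rw [card_product, card_product, card_univ, zmod_card, card_range]
  exact le_of_eq (by ring)

/-- number of colours with `gi b = gj b`, `gs b = s` -/
lemma cntC (X : Ctx m r k d G U F) (s : ZMod (2 * r + 1)) :
    (X.Ga.filter (fun b => X.gi b = X.gj b ∧ s = X.gs b)).card ≤ (2 * m + 1) * X.u := by
  have h1 : (X.Ga.filter (fun b => X.gi b = X.gj b ∧ s = X.gs b)).card ≤
      ((univ : Finset (ZMod (2 * m + 1))) ×ˢ (range X.u)).card := by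
    refine card_le_card_of_injOn (fun b => (X.gi b, X.gk b)) ?_ ?_
    · intro b hb
      rw [mem_coe, mem_filter] at hb
      rw [mem_coe]
      simp only [mem_product, mem_univ, true_and, mem_range]
      exact X.glt b hb.1
    · intro b hb b' hb' h
      rw [mem_coe, mem_filter] at hb hb'
      simp only [Prod.mk.injEq] at h
      exact X.ginj b hb.1 b' hb'.1 h.1 (by rw [← hb.2.1, ← hb'.2.1]; exact h.1)
        (by rw [← hb.2.2, ← hb'.2.2]) h.2
  refine h1.trans ?_
  rw [card_product, card_univ, zmod_card, card_range]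

lemma arith (X : Ctx m r k d G U F) :
    (((2 * m + 1) * (2 * r + 1) + (2 * m + 1) * (2 * m + 1) * (2 * r + 1) * X.w +
      (2 * m + 1) * (2 * m + 1) * X.u + (2 * m + 1) * X.u : ℕ) : ℝ) ≤ 3 * d / (2 * r + 1) := by
  have hm := X.mbig
  have hr := X.rbig
  have hd1 := X.dlsm
  have hd2 := X.dbig
  have hw := X.wub
  have hu := X.uhi
  have hg0 := X.g0
  have hg1 := X.g1
  have hdl0 := X.dl0
  have hd0 : (0 : ℝ) ≤ d := Nat.cast_nonneg d
  have hu0 : (0 : ℝ) ≤ X.u := Nat.cast_nonneg _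
  have hw0 : (0 : ℝ) ≤ X.w := Nat.cast_nonneg _
  push_cast
  set M : ℝ := 2 * (m : ℝ) + 1 with hM
  set R : ℝ := 2 * (r : ℝ) + 1 with hR
  have hm0 : (0 : ℝ) ≤ (m : ℝ) := Nat.cast_nonneg m
  have hr0 : (0 : ℝ) ≤ (r : ℝ) := Nat.cast_nonneg r
  have hM1 : 1 ≤ M := by linarith
  have hR1 : 1 ≤ R := by linarith
  have hg2 : X.g ^ 2 ≤ 1 / 10000 := by nlinarith
  have hM9 : 10 ^ 5 ≤ M := by
    have : X.g ^ 2 * M ≤ 1 * M := by
      apply mul_le_mul_of_nonneg_right _ (by linarith)
      linarith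
    linarith
  have h12 : 1 ≤ M ^ 12 * R ^ 2 := one_le_mul_of_one_le_of_one_le (one_le_pow₀ hM1)
    (one_le_pow₀ hR1)
  have hdl1 : X.dl ≤ 1 := by
    have h3 : X.dl * 1 ≤ X.dl * (10 ^ 6 * M ^ 12 * R ^ 2) := by
      apply mul_le_mul_of_nonneg_left _ hdl0.le
      nlinarith
    linarith
  have hdd : X.dl * d ≤ d := by nlinarith
  -- first term
  have t1 : R * (M * R) ≤ d / 100 := by
    have h3 : M ≤ M ^ 20 := le_self_pow₀ hM1 (by norm_num)
    have h4 : R ^ 2 ≤ R ^ 3 := pow_le_pow_right₀ hR1 (by norm_num)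
    have h5 : M * R ^ 2 ≤ M ^ 20 * R ^ 3 := by
      apply mul_le_mul h3 h4 (by positivity) (by positivity)
    nlinarith
  -- fourth and third term
  have hmm : 2 * (m : ℝ) = M - 1 := by rw [hM]; ring
  have hue : 2 * M * R * (2 * (m : ℝ) * X.u) ≤ d := by
    have h3 : (1 - 1 / (2 * M ^ 7)) * (d : ℝ) ≤ d := by
      have h4 : 0 ≤ 1 / (2 * M ^ 7) := by positivity
      nlinarith
    linarith
  rw [hmm] at hue
  set Y : ℝ := R * (M * X.u) with hY
  have hY0 : 0 ≤ Y := by positivity
  have hue' : 2 * (M - 1) * Y ≤ d := by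
    rw [hY]; nlinarith
  have t4 : Y ≤ d / 100 := by
    have h3 : 100 * Y ≤ 2 * (M - 1) * Y := by
      apply mul_le_mul_of_nonneg_right _ hY0
      linarith
    linarith
  have t3 : M * Y ≤ d * (3 / 5) := by
    have h3 : M * Y = (M - 1) * Y + Y := by ring
    rw [h3]
    nlinarith
  have hRpos : 0 < R := by linarith
  rw [le_div_iff₀ hRpos]
  have e : (M * R + M * M * R * X.w + M * M * X.u + M * X.u) * R =
      R * (M * R) + M ^ 2 * R ^ 2 * X.w + M * Y + Y := by
    rw [hY]; ring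
  rw [e]
  linarith

end PREAux

open PREAux in
/-- Block PRE. -/
theorem stmt_PRE : Stmt_PRE.{u} := by
  intro m r V _ k d G U F X S C
  have key : ∀ b ∈ X.Ga, ∀ v w, v ∉ U → ¬ X.idl b v → X.sub v ∈ X.Fs b → ¬ EP X S C b v w := by
    intro b _ v w hv hi hs h
    rcases h with h | h | h
    · exact h.2 hs
    · exact hv h.1
    · have := (C.tG w h.1 v h.2.1).2.1
      rw [h.2.2] at this
      exact hi this
  have hSs : ∀ b v w, S.E b v w → w ∉ U := by
    intro b v w h
    exact (S.adj b w v (S.sym b v w h)).2.2.1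
  refine ⟨⟨EP X S C, ?_, ?_, ?_, ?_, ?_, ?_, ?_, ?_, ?_, ?_, ?_, ?_, ?_, ?_⟩, key⟩
  · -- sym
    rintro b v w (h | h | h)
    · left
      refine ⟨S.sym b v w h.1, fun hs => h.2 ?_⟩
      have h1 := Fs_invol X b _ hs
      rw [S.rho b v w h.1] at h1
      have e : 2 * X.gs b - (2 * X.gs b - X.sub v) = X.sub v := by ring
      rw [e] at h1
      exact h1
    · right; right; exact h
    · right; left; exact h
  · -- adj
    rintro b v w (h | h | h)
    · exact ⟨(S.adj b v w h.1).1, (S.adj b v w h.1).2.1⟩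
    · exact ⟨h.2.1, h.2.2 ▸ (C.tG v h.1 w h.2.1).1⟩
    · exact ⟨h.2.1.symm, h.2.2 ▸ (C.tG w h.1 v h.2.1).1⟩
  · -- inj
    intro b v w w' h h'
    rcases h with h | h | h
    · rcases h' with h' | h' | h'
      · exact S.inj b v w w' h.1 h'.1
      · exact absurd h'.1 (S.adj b v w h.1).2.2.1
      · exact absurd (h'.2.2 ▸ (C.tG w' h'.1 v h'.2.1).2.1) (S.adj b v w h.1).2.2.2
    · rcases h' with h' | h' | h'
      · exact absurd h.1 (S.adj b v w' h'.1).2.2.1
      · refine C.inj v h.1 ?_ ?_ (h.2.2.trans h'.2.2.symm)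
        · rw [mem_coe]; unfold nb; rw [mem_filter]; exact ⟨mem_univ _, h.2.1⟩
        · rw [mem_coe]; unfold nb; rw [mem_filter]; exact ⟨mem_univ _, h'.2.1⟩
      · exact absurd h'.2.1 (UU' X h'.1 h.1)
    · rcases h' with h' | h' | h'
      · exact absurd (h.2.2 ▸ (C.tG w h.1 v h.2.1).2.1) (S.adj b v w' h'.1).2.2.2
      · exact absurd h.2.1 (UU' X h.1 h'.1)
      · exact unique_U X h.1 h'.1 h.2.1 h'.2.1
  · -- uniq
    intro b b' v w h h'
    rcases h with h | h | h
    · rcases h' with h' | h' | h'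
      · exact S.uniq b b' v w h.1 h'.1
      · exact absurd h'.1 (S.adj b v w h.1).2.2.1
      · exact absurd h'.1 (hSs b v w h.1)
    · rcases h' with h' | h' | h'
      · exact absurd h.1 (S.adj b' v w h'.1).2.2.1
      · exact h.2.2.symm.trans h'.2.2
      · exact absurd h'.2.1 (UU' X h'.1 h.1)
    · rcases h' with h' | h' | h'
      · exact absurd h.1 (hSs b' v w h'.1)
      · exact absurd h.2.1 (UU' X h.1 h'.1)
      · exact h.2.2.symm.trans h'.2.2
  · -- EF
    intro b v w h
    rcases h with h | h | h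
    · rw [X.F0 v (S.adj b v w h.1).2.2.1]; exact notMem_empty _
    · rw [← h.2.2]; exact (C.tG v h.1 w h.2.1).2.2.1
    · rw [X.F0 v (fun hv => UU' X h.1 hv h.2.1)]; exact notMem_empty _
  · -- Ec
    intro b v w hv h
    rcases h with h | h | h
    · intro hc
      apply h.2
      unfold Ctx.Fs
      rw [mem_filter]
      refine ⟨mem_univ _, Or.inl ?_⟩
      rw [← hc]
      exact X.cP v hv
    · exact absurd h.1 hv
    · intro hc
      apply (C.tG w h.1 v h.2.1).2.2.2
      rw [h.2.2, ← hc]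
      exact X.cP v hv
  · -- EU
    intro v hv w h
    exact ⟨C.t v w, Or.inr (Or.inl ⟨hv, h, rfl⟩)⟩
  · -- Ei
    intro b v w hi h
    rcases h with h | h | h
    · exact absurd hi (S.adj b v w h.1).2.2.2
    · exact absurd h.1 hi.1
    · exact h.1
  · -- En
    intro b v w hv hi h
    rcases h with h | h | h
    · exact hSs b v w h.1
    · exact absurd h.1 hv
    · exact absurd (h.2.2 ▸ (C.tG w h.1 v h.2.1).2.1) hi
  · -- rho
    intro b v w hv hw h
    rcases h with h | h | h
    · exact S.rho b v w h.1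
    · exact absurd h.1 hv
    · exact absurd h.1 hw
  · -- iloc
    intro b hb y
    refine le_trans ?_ (C.loc y b hb)
    norm_cast
    apply card_le_card
    intro v hv
    rw [mem_filter] at hv ⊢
    refine ⟨hv.1, ?_⟩
    obtain ⟨hi, w, hw⟩ := hv.2
    rcases hw with h | h | h
    · exact absurd hi (S.adj b v w h.1).2.2.2
    · exact absurd h.1 hi.1
    · exact ⟨w, h.1, h.2.1, h.2.2⟩
  · -- ucnt
    intro u hu j
    refine le_trans ?_ (C.cnt u hu j)
    norm_cast
    apply card_le_card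
    intro b hb
    rw [mem_filter] at hb ⊢
    refine ⟨hb.1, hb.2.1, hb.2.2.1, ?_⟩
    intro w hw he
    exact hb.2.2.2 w (Or.inr (Or.inl ⟨hu, hw, he⟩))
  · -- part
    intro b hb a ha hs
    refine le_trans ?_ (S.part b hb a ha ?_)
    · apply card_le_card
      intro v hv
      rw [mem_filter] at hv ⊢
      refine ⟨hv.1, ?_⟩
      intro w hw
      refine hv.2 w (Or.inl ⟨hw, ?_⟩)
      have h1 := hv.1
      have h2 : X.at' v = a := mem_singleton.1 ((mem_cls U X.at' {a} v).1 h1).2
      have h3 : X.sub v = a.2.2 := by rw [← h2]; rfl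
      rw [h3]
      exact hs
    · rintro ⟨h1, h2⟩
      apply hs
      unfold Ctx.Fs
      rw [mem_filter]
      exact ⟨mem_univ _, Or.inr (Or.inr ⟨h1, h2⟩)⟩
  · -- hcnt
    intro v hv
    refine le_trans ?_ (arith X)
    norm_cast
    have h1 := S.few v hv
    have h2 := cntA X (X.sub v)
    have h3 := cntB X (X.sub v)
    have h4 := cntC X (X.sub v)
    have hsub : X.Ga.filter (fun b => ¬ X.idl b v ∧ ∀ w, ¬ EP X S C b v w) ⊆
        (((X.Ga.filter (fun b => ¬ X.idl b v ∧ ¬ (X.gi b = X.gj b ∧ X.sub v = X.gs b) ∧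
          ∀ w, ¬ S.E b v w)) ∪ X.Ga.filter (fun b => X.hm (X.gk b) = some (X.sub v))) ∪
          X.Ga.filter (fun b => X.hm (X.gk b) = some (2 * X.gs b - X.sub v))) ∪
          X.Ga.filter (fun b => X.gi b = X.gj b ∧ X.sub v = X.gs b) := by
      intro b hb
      rw [mem_filter] at hb
      simp only [mem_union, mem_filter]
      by_cases hc : X.gi b = X.gj b ∧ X.sub v = X.gs b
      · right; exact ⟨hb.1, hc⟩
      left
      by_cases hs : X.sub v ∈ X.Fs b
      · unfold Ctx.Fs at hs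
        rw [mem_filter] at hs
        rcases hs.2 with h5 | h5 | h5
        · left; right; exact ⟨hb.1, (X.Palh b hb.1 _).1 h5⟩
        · right; exact ⟨hb.1, (X.Palh b hb.1 _).1 h5⟩
        · exact absurd h5 hc
      · left; left
        refine ⟨hb.1, hb.2.1, hc, ?_⟩
        intro w hw
        exact hb.2.2 w (Or.inl ⟨hw, hs⟩)
    refine (card_le_card hsub).trans ?_
    refine (card_union_le _ _).trans (add_le_add ((card_union_le _ _).trans
      (add_le_add ((card_union_le _ _).trans (add_le_add h1 h2)) h3)) h4)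

end Pool.Agent.Work.MP_db9399_exp.helper83
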